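import Pool.Agent.K1H5.PLN.Stm

set_option autoImplicit false

/-!
Pieces `S_FRT` and `S_STEP` of the project PLN.
-/

namespace Pool.Agent.K1H87.PLN

open Matrix Topology Filter Pool.Agent.K1H5.PLN

variable {n : ℕ}

lemma loc_fix {h : V n ≃ₜ V n} {x a v : V n} (L : Loc h x a v) : h x = x := by
  obtain ⟨-, -, -, hL⟩ := L
  exact hL.self_of_nhds.1 (by simp)

lemma loc_pow {h : V n ≃ₜ V n} {x a v : V n} (L : Loc h x a v) (k : ℕ) :
    ∀ᶠ y in 𝓝 x, (a ⬝ᵥ (y - x) ≤ 0 → (h ^ k) y = y) ∧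
      (0 ≤ a ⬝ᵥ (y - x) →
        (h ^ k) y = y + ((∑ j ∈ Finset.range k, (1 + a ⬝ᵥ v) ^ j) * (a ⬝ᵥ (y - x))) • v) := by
  have hx := loc_fix L
  obtain ⟨ha, hv, hα, hL⟩ := L
  induction k with
  | zero =>
    refine Eventually.of_forall (fun y => ⟨fun _ => ?_, fun _ => ?_⟩)
    · rw [pow_zero]; rfl
    · rw [pow_zero]; simp
  | succ k ih =>
    have hc : Tendsto h (𝓝 x) (𝓝 x) := by
      have := h.continuous.tendsto x
      rwa [hx] at this
    filter_upwards [hL, hc.eventually ih] with y h1 h2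
    have hs : (h ^ (k + 1)) y = (h ^ k) (h y) := by
      rw [pow_succ]; rfl
    rw [hs]
    constructor
    · intro hy
      have e := h1.1 hy
      rw [e] at h2 ⊢
      exact h2.1 hy
    · intro hy
      have e := h1.2 hy
      have e2 : a ⬝ᵥ (h y - x) = (1 + a ⬝ᵥ v) * (a ⬝ᵥ (y - x)) := by
        rw [e, add_sub_right_comm, dotProduct_add, dotProduct_smul, smul_eq_mul]
        ring
      have e3 : 0 ≤ a ⬝ᵥ (h y - x) := by
        rw [e2]; exact mul_nonneg hα.le hy
      have hsum : ∑ j ∈ Finset.range (k + 1), (1 + a ⬝ᵥ v) ^ j =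
          (∑ j ∈ Finset.range k, (1 + a ⬝ᵥ v) ^ j) * (1 + a ⬝ᵥ v) + 1 := by
        rw [Finset.sum_range_succ', Finset.sum_mul, pow_zero]
        simp only [pow_succ]
      rw [h2.2 e3, e2, e, hsum, add_assoc, ← add_smul]
      congr 2
      ring

lemma coef_pos {α : ℝ} (hα : 0 < α) {m : ℕ} (hm : 0 < m) :
    0 < ∑ j ∈ Finset.range m, α ^ j :=
  Finset.sum_pos (fun j _ => pow_pos hα j) ⟨0, Finset.mem_range.mpr hm⟩

lemma loc_iff {h : V n ≃ₜ V n} {x a v : V n} (L : Loc h x a v) {m : ℕ} (hm : 0 < m) :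
    ∀ᶠ y in 𝓝 x, ((h ^ m) y = y ↔ a ⬝ᵥ (y - x) ≤ 0) := by
  filter_upwards [loc_pow L m] with y hy
  refine ⟨fun e => ?_, hy.1⟩
  by_contra hcon
  have hpos : 0 < a ⬝ᵥ (y - x) := not_le.mp hcon
  have e2 := hy.2 hpos.le
  rw [e] at e2
  have e3 : ((∑ j ∈ Finset.range m, (1 + a ⬝ᵥ v) ^ j) * (a ⬝ᵥ (y - x))) • v = 0 := by
    have := e2.symm
    rwa [add_eq_left] at this
  rcases smul_eq_zero.mp e3 with h0 | h0
  · exact absurd h0 (mul_pos (coef_pos L.2.2.1 hm) hpos).ne'
  · exact L.2.1 h0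

lemma rel {h t : V n ≃ₜ V n} {m : ℕ} (hr : t * h * t⁻¹ = h ^ m) (y : V n) :
    t (h y) = (h ^ m) (t y) := by
  rw [← hr]
  change t (h y) = t (h (t.symm (t y)))
  rw [Homeomorph.symm_apply_apply]

lemma self_pos {a : V n} (ha : a ≠ 0) : 0 < a ⬝ᵥ a := by
  have h0 : 0 ≤ a ⬝ᵥ a := by
    rw [dotProduct]
    exact Finset.sum_nonneg (fun i _ => mul_self_nonneg _)
  refine lt_of_le_of_ne h0 (fun h => ha ?_)
  exact dotProduct_self_eq_zero.mp h.symm

lemma line_tendsto (x a : V n) : Tendsto (fun ε : ℝ => x + ε • a) (𝓝[>] 0) (𝓝 x) := by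
  have h1 : Tendsto (fun ε : ℝ => x + ε • a) (𝓝 0) (𝓝 (x + (0 : ℝ) • a)) := by
    apply Continuous.tendsto
    fun_prop
  rw [zero_smul, add_zero] at h1
  exact h1.mono_left nhdsWithin_le_nhds

theorem t_FRT : S_FRT := by
  intro n h t m hm hr x a v L
  have hm0 : 0 < m := by omega
  have hiff := loc_iff L hm0
  have haa := self_pos L.1
  have hfix : ∀ y, h y = y ↔ (h ^ m) (t y) = t y := by
    intro y
    rw [← rel hr]
    exact ⟨fun e => by rw [e], fun e => t.injective e⟩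
  unfold fixInt
  rw [IsOpen.frontier_eq isOpen_interior]
  refine ⟨?_, fun hx => ?_⟩
  · have hT : Tendsto (fun ε : ℝ => t.symm (t x + ε • (-a))) (𝓝[>] 0) (𝓝 x) := by
      have := (t.symm.continuous.tendsto (t x)).comp (line_tendsto (t x) (-a))
      rw [Homeomorph.symm_apply_apply] at this
      exact this
    refine mem_closure_of_tendsto hT ?_
    have h2 := (line_tendsto (t x) (-a)).eventually hiff.eventually_nhds
    filter_upwards [h2, self_mem_nhdsWithin] with ε hε hpos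
    have hpos' : (0 : ℝ) < ε := hpos
    rw [mem_interior_iff_mem_nhds]
    change ∀ᶠ y in 𝓝 (t.symm (t x + ε • (-a))), h y = y
    have hneg : ∀ᶠ z in 𝓝 (t x + ε • (-a)), a ⬝ᵥ (z - t x) < 0 := by
      have hc : Continuous (fun z : V n => a ⬝ᵥ (z - t x)) := by
        simp only [dotProduct]
        fun_prop
      refine hc.continuousAt.eventually_lt continuousAt_const ?_
      have : t x + ε • (-a) - t x = (-ε) • a := by
        simp
      rw [this, dotProduct_smul, smul_eq_mul]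
      nlinarith
    have hboth : ∀ᶠ z in 𝓝 (t x + ε • (-a)), (h ^ m) z = z := by
      filter_upwards [hε, hneg] with z h1 h2
      exact h1.mpr h2.le
    have hT2 : Tendsto t (𝓝 (t.symm (t x + ε • (-a)))) (𝓝 (t x + ε • (-a))) := by
      have := t.continuous.tendsto (t.symm (t x + ε • (-a)))
      rwa [Homeomorph.apply_symm_apply] at this
    filter_upwards [hT2.eventually hboth] with y hy
    exact (hfix y).mpr hy
  · rw [mem_interior_iff_mem_nhds] at hx
    have hx' : ∀ᶠ y in 𝓝 x, h y = y := hx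
    have hx2 : ∀ᶠ y in 𝓝 (t.symm (t x)), h y = y := by
      rwa [Homeomorph.symm_apply_apply]
    have h3 : ∀ᶠ z in 𝓝 (t x), h (t.symm z) = t.symm z :=
      (t.symm.continuous.tendsto (t x)).eventually hx2
    have h4 : ∀ᶠ z in 𝓝 (t x), a ⬝ᵥ (z - t x) ≤ 0 := by
      filter_upwards [h3, hiff] with z h1 h2
      rw [← h2]
      have := (hfix (t.symm z)).mp h1
      rwa [Homeomorph.apply_symm_apply] at this
    have h5 := (line_tendsto (t x) a).eventually h4
    obtain ⟨ε, hε, hpos⟩ := (h5.and self_mem_nhdsWithin).exists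
    have hpos' : (0 : ℝ) < ε := hpos
    rw [add_sub_cancel_left, dotProduct_smul, smul_eq_mul] at hε
    nlinarith

theorem t_STEP : S_STEP := by
  intro n h t m hm hr x a v a' v' S c L L' hT w
  have hm0 : 0 < m := by omega
  have haa := self_pos L.1
  set κ : ℝ := ∑ k ∈ Finset.range m, (1 + a' ⬝ᵥ v') ^ k with hκ
  have hx := loc_fix L
  have htx : t x = S *ᵥ x + c := hT.self_of_nhds (by simp)
  have main : ∀ w : V n, 0 < a ⬝ᵥ w →
      (a ⬝ᵥ w) • (S *ᵥ v) = (κ * (a' ⬝ᵥ (S *ᵥ w))) • v' := by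
    intro w hw
    have hc : Tendsto h (𝓝 x) (𝓝 x) := by
      have := h.continuous.tendsto x
      rwa [hx] at this
    have ht : Tendsto t (𝓝 x) (𝓝 (t x)) := t.continuous.tendsto x
    have e1 := (line_tendsto x w).eventually (L.2.2.2.and ((hc.eventually hT).and
      (hT.and (ht.eventually (loc_pow L' m)))))
    obtain ⟨ε, ⟨h1, h2, h3, h4⟩, hpos⟩ := (e1.and self_mem_nhdsWithin).exists
    have hε : (0 : ℝ) < ε := hpos
    set y : V n := x + ε • w with hy
    have hyx : y - x = ε • w := by rw [hy, add_sub_cancel_left]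
    have hs : a ⬝ᵥ (y - x) = ε * (a ⬝ᵥ w) := by
      rw [hyx, dotProduct_smul, smul_eq_mul]
    have hs0 : 0 < a ⬝ᵥ (y - x) := by rw [hs]; positivity
    have hhy := h1.2 hs0.le
    have hty := h3 hs0.le
    have hhyx : 0 ≤ a ⬝ᵥ (h y - x) := by
      rw [hhy, add_sub_right_comm, dotProduct_add, dotProduct_smul, smul_eq_mul]
      have := mul_pos hs0 L.2.2.1
      nlinarith
    have hthy := h2 hhyx
    have hty2 : t (h y) = t y + (a ⬝ᵥ (y - x)) • (S *ᵥ v) := by
      rw [hthy, hhy, mulVec_add, mulVec_smul, hty]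
      abel
    have hne : h y ≠ y := by
      rw [hhy]
      intro h0
      rw [add_eq_left] at h0
      rcases smul_eq_zero.mp h0 with h0 | h0
      · exact hs0.ne' h0
      · exact L.2.1 h0
    have hne2 : (h ^ m) (t y) ≠ t y := by
      rw [← rel hr]
      exact fun e => hne (t.injective e)
    have hpos2 : 0 ≤ a' ⬝ᵥ (t y - t x) := by
      by_contra hcon
      exact hne2 (h4.1 (not_le.mp hcon).le)
    have h5 := h4.2 hpos2
    rw [← rel hr, hty2, add_right_inj] at h5
    have h6 : t y - t x = ε • (S *ᵥ w) := by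
      rw [hty, htx, add_sub_add_right_eq_sub, ← mulVec_sub, hyx, mulVec_smul]
    rw [h6, hs, dotProduct_smul, smul_eq_mul] at h5
    have h7 : ε • ((a ⬝ᵥ w) • (S *ᵥ v)) = ε • ((κ * (a' ⬝ᵥ (S *ᵥ w))) • v') := by
      rw [smul_smul, smul_smul, h5]
      congr 1
      ring
    exact smul_right_injective _ hε.ne' h7
  set K : ℝ := (|a ⬝ᵥ w| + 1) / (a ⬝ᵥ a) with hK
  have hK0 : 0 < K := by positivity
  have hKa : a ⬝ᵥ (K • a) = |a ⬝ᵥ w| + 1 := by
    rw [dotProduct_smul, smul_eq_mul, hK]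
    field_simp
  have h1 := main (K • a) (by rw [hKa]; positivity)
  have h2 := main (K • a + w) (by
    rw [dotProduct_add, hKa]
    have := neg_abs_le (a ⬝ᵥ w)
    linarith)
  rw [dotProduct_add, mulVec_add, dotProduct_add, mul_add, add_smul, add_smul, h1,
    add_right_inj] at h2
  exact h2

end Pool.Agent.K1H87.PLN
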